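import Mathlib

namespace Pool.Agent.Results.MP_68514f_co.ParityObstruction

/-- A mixed graph: undirected edges `E` and arcs `A` (`A u v` is an arc from `u` to `v`). -/
structure MixedGraph (V : Type) where
  E : SimpleGraph V
  A : V → V → Prop
  irrefl : ∀ v, ¬ A v v

/-- the numbers `N_i` -/
def N (r z : ℕ) : ℕ → ℕ
  | 0 => 1
  | 1 => r + z
  | i + 2 => (r + z - 1) * N r z (i + 1) + z * N r z i

/-- the mixed Moore bound `M(r,z,k)` -/
def M (r z k : ℕ) : ℕ := ∑ i ∈ Finset.range (k + 1), N r z i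

/-- `G` is totally `(r,z)`-regular -/
def TotallyRegular {V : Type} (G : MixedGraph V) (r z : ℕ) : Prop :=
  ∀ v, (G.E.neighborSet v).ncard = r ∧ {w | G.A v w}.ncard = z ∧ {w | G.A w v}.ncard = z

/-- there is a walk of length `n` from `u` to `v` -/
def WalkLen {V : Type} (G : MixedGraph V) : ℕ → V → V → Prop
  | 0, u, v => u = v
  | n + 1, u, v => ∃ w, (G.E.Adj u w ∨ G.A u w) ∧ WalkLen G n w v

/-- the distance (`⊤` if there is no walk) -/
noncomputable def dist {V : Type} (G : MixedGraph V) (u v : V) : ℕ∞ :=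
  ⨅ (n : ℕ) (_ : WalkLen G n u v), (n : ℕ∞)

/-- out-eccentricity -/
noncomputable def ecc {V : Type} (G : MixedGraph V) (u : V) : ℕ∞ := ⨆ v, dist G u v

/-- `(r,z,k)`-mixed radial Moore graph -/
def IsRadialMoore {V : Type} (G : MixedGraph V) (r z k : ℕ) : Prop :=
  Nat.card V = M r z k ∧ TotallyRegular G r z ∧ (⨅ u, ecc G u) = (k : ℕ∞) ∧ (⨆ u, ecc G u) = (k + 1 : ℕ∞)

theorem N_parity (r z : ℕ) (hr : Odd r) (hz : Odd z) (j : ℕ) :
    N r z (3 * j) % 2 = 1 ∧ N r z (3 * j + 1) % 2 = 0 := by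
  obtain ⟨a, rfl⟩ := hr
  obtain ⟨b, rfl⟩ := hz
  induction j with
  | zero =>
    constructor
    · simp [N]
    · simp only [Nat.mul_zero, Nat.zero_add, N]
      omega
  | succ j ih =>
    obtain ⟨h1, h2⟩ := ih
    have e1 : 2 * a + 1 + (2 * b + 1) - 1 = 2 * (a + b) + 1 := by omega
    have h3 : N (2 * a + 1) (2 * b + 1) (3 * j + 2) % 2 = 1 := by
      rw [N, e1]
      rw [Nat.add_mod, Nat.mul_mod, Nat.mul_mod (2 * b + 1), h1, h2]
      have : (2 * b + 1) % 2 = 1 := by omega
      simp [this]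
    have h4 : N (2 * a + 1) (2 * b + 1) (3 * j + 3) % 2 = 1 := by
      rw [show 3 * j + 3 = (3 * j + 1) + 2 by ring, N, e1]
      rw [Nat.add_mod, Nat.mul_mod, Nat.mul_mod (2 * b + 1), show 3 * j + 1 + 1 = 3 * j + 2 by ring, h3, h2]
      have : (2 * (a + b) + 1) % 2 = 1 := by omega
      simp [this]
    have h5 : N (2 * a + 1) (2 * b + 1) (3 * j + 4) % 2 = 0 := by
      rw [show 3 * j + 4 = (3 * j + 2) + 2 by ring, N, e1]
      rw [Nat.add_mod, Nat.mul_mod, Nat.mul_mod (2 * b + 1), show 3 * j + 2 + 1 = 3 * j + 3 by ring, h3, h4]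
      have : (2 * (a + b) + 1) % 2 = 1 := by omega
      have h7 : (2 * b + 1) % 2 = 1 := by omega
      rw [this, h7]
    exact ⟨by rw [show 3 * (j + 1) = 3 * j + 3 by ring]; exact h4,
      by rw [show 3 * (j + 1) + 1 = 3 * j + 4 by ring]; exact h5⟩

theorem N_parity' (r z : ℕ) (hr : Odd r) (hz : Odd z) (j : ℕ) : N r z (3 * j + 2) % 2 = 1 := by
  obtain ⟨h1, h2⟩ := N_parity r z hr hz j
  obtain ⟨a, rfl⟩ := hr
  obtain ⟨b, rfl⟩ := hz
  have e1 : 2 * a + 1 + (2 * b + 1) - 1 = 2 * (a + b) + 1 := by omega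
  rw [N, e1]
  rw [Nat.add_mod, Nat.mul_mod, Nat.mul_mod (2 * b + 1), h1, h2]
  have : (2 * b + 1) % 2 = 1 := by omega
  simp [this]

theorem M_parity (r z : ℕ) (hr : Odd r) (hz : Odd z) (j : ℕ) :
    M r z (3 * j) % 2 = 1 ∧ M r z (3 * j + 1) % 2 = 1 := by
  have h0 : M r z (3 * j) % 2 = 1 := by
    induction j with
    | zero => simp [M, N]
    | succ j ih =>
      have h1 := N_parity r z hr hz j
      have h2 := N_parity' r z hr hz j
      have h3 := N_parity r z hr hz (j + 1)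
      have e : M r z (3 * (j + 1)) = M r z (3 * j) + N r z (3 * j + 1) + N r z (3 * j + 2) + N r z (3 * (j + 1)) := by
        unfold M
        rw [show 3 * (j + 1) = 3 * j + 3 by ring, Finset.sum_range_succ, Finset.sum_range_succ,
          Finset.sum_range_succ]
      rw [e]
      omega
  refine ⟨h0, ?_⟩
  have h1 := N_parity r z hr hz j
  unfold M at *
  rw [Finset.sum_range_succ]
  omega

theorem M_odd (r z k : ℕ) (hr : Odd r) (hz : Odd z) (hk : k % 3 ≠ 2) : M r z k % 2 = 1 := by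
  have h := M_parity r z hr hz (k / 3)
  rcases (show k % 3 = 0 ∨ k % 3 = 1 by omega) with h1 | h1
  · rw [show k = 3 * (k / 3) by omega]; exact h.1
  · rw [show k = 3 * (k / 3) + 1 by omega]; exact h.2

theorem even_card {V : Type} [Fintype V] (G : SimpleGraph V) (r : ℕ) (hr : Odd r)
    (h : ∀ v, (G.neighborSet v).ncard = r) : Even (Fintype.card V) := by
  classical
  have h1 := G.sum_degrees_eq_twice_card_edges
  have h2 : ∀ v, G.degree v = r := by
    intro v
    rw [← h v, ← SimpleGraph.card_neighborSet_eq_degree, ← Nat.card_coe_set_eq, Nat.card_eq_fintype_card]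
  rw [Finset.sum_congr rfl (fun v _ => h2 v), Finset.sum_const, Finset.card_univ, smul_eq_mul] at h1
  have h3 : Even (Fintype.card V * r) := ⟨_, h1.trans (by ring)⟩
  rw [Nat.even_mul] at h3
  rcases h3 with h3 | h3
  · exact h3
  · exact absurd hr (Nat.not_odd_iff_even.2 h3)

/-- For odd `r`, odd `z` and every `k` not congruent to `2` modulo `3` there is no
`(r,z,k)`-mixed radial Moore graph; in particular there is none with `(r,z,k) = (1,1,3)`. -/
theorem result : ∀ r z k : ℕ, Odd r → Odd z → k % 3 ≠ 2 →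
    ¬ ∃ (V : Type) (_ : Finite V) (G : MixedGraph V), IsRadialMoore G r z k := by
  rintro r z k hr hz hk ⟨V, hfin, G, hcard, hreg, -, -⟩
  have := Fintype.ofFinite V
  have h1 := even_card G.E r hr (fun v => (hreg v).1)
  rw [Nat.card_eq_fintype_card] at hcard
  rw [hcard] at h1
  have h2 := M_odd r z k hr hz hk
  rw [Nat.even_iff] at h1
  omega

end Pool.Agent.Results.MP_68514f_co.ParityObstruction
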